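import Mathlib
import Pool.Agent.W_MP_fd6526_gt.Final

set_option autoImplicit false

namespace Pool.Agent.Results.MP_fd6526_gt.EmbedsAllDimensions

open MeasureTheory Set Metric SchwartzMap
open scoped RealInnerProductSpace

/-- The Euclidean space `ℝ^n`. -/
abbrev V (n : ℕ) := EuclideanSpace ℝ (Fin n)

/-- A convex body: compact, convex, nonempty interior. -/
def IsConvexBody {n : ℕ} (K : Set (V n)) : Prop :=
  Convex ℝ K ∧ IsCompact K ∧ (interior K).Nonempty

/-- The radial function `ρ_M(x) = sup {t ≥ 0 : t x ∈ M}`. -/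
noncomputable def radial {n : ℕ} (M : Set (V n)) (x : V n) : ℝ :=
  sSup {t : ℝ | 0 ≤ t ∧ t • x ∈ M}

/-- A star body: compact, star-shaped about `0`, radial function positive and continuous on the
unit sphere. -/
def IsStarBody {n : ℕ} (M : Set (V n)) : Prop :=
  IsCompact M ∧ StarConvex ℝ 0 M ∧ (∀ u ∈ sphere (0 : V n) 1, 0 < radial M u) ∧
    ContinuousOn (radial M) (sphere (0 : V n) 1)

/-- `M` is the radial `p`-th mean body `R_p K` of `K`. -/
def IsRadialMeanBody {n : ℕ} (p : ℝ) (K M : Set (V n)) : Prop :=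
  IsStarBody M ∧ ∀ u ∈ sphere (0 : V n) 1,
    radial M u = ((volume.real K)⁻¹ * ∫ x in K, (radial ((fun z => z - x) '' K) u) ^ p) ^ (1 / p)

/-- `M` embeds in `L^q`: `ρ_M^(-q)(x) = ∫ |⟨x,u⟩|^q dμ(u)` for a finite Borel measure `μ` on the
unit sphere. -/
def EmbedsInLq {n : ℕ} (q : ℝ) (M : Set (V n)) : Prop :=
  ∃ μ : Measure (sphere (0 : V n) 1), IsFiniteMeasure μ ∧
    ∀ x : V n, x ≠ 0 → (radial M x) ^ (-q) = ∫ u, |⟪x, (u : V n)⟫| ^ q ∂μ

/-- The Fourier transform `hat φ(x) = ∫ φ(ξ) e^(-i⟨ξ,x⟩) dξ`. -/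
noncomputable def hat {n : ℕ} (φ : 𝓢(V n, ℂ)) (x : V n) : ℂ :=
  ∫ ξ, φ ξ * Complex.exp (-(Complex.I * ((⟪ξ, x⟫ : ℝ) : ℂ)))

/-- The Fourier transform of the function `f` is a positive distribution off the origin:
`⟨f, hat φ⟩ ≥ 0` for every nonnegative Schwartz function `φ` with `φ(0) = 0`. -/
def PosDefOffOrigin {n : ℕ} (f : V n → ℝ) : Prop :=
  ∀ φ : 𝓢(V n, ℂ), (∀ ξ, 0 ≤ (φ ξ).re ∧ (φ ξ).im = 0) → φ 0 = 0 →
    Integrable (fun x => (f x : ℂ) * hat φ x) ∧
      ∃ c : ℝ, 0 ≤ c ∧ ∫ x, (f x : ℂ) * hat φ x = (c : ℂ)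

theorem image_eq {n : ℕ} (K : Set (V n)) (x : V n) :
    (fun z => z - x) '' K = {z | z + x ∈ K} := by
  ext z
  constructor
  · rintro ⟨w, hw, rfl⟩
    show w - x + x ∈ K
    simpa using hw
  · intro hz
    exact ⟨z + x, hz, by simp⟩

theorem radial_eq {n : ℕ} (M : Set (V n)) : radial M = W_MP_fd6526_gt.radialFn M := rfl

theorem average_eq {n : ℕ} (p : ℝ) (K : Set (V n)) (u : V n) :
    ∫ x in K, (radial ((fun z => z - x) '' K) u) ^ p
      = ∫ y in K, (W_MP_fd6526_gt.radialFn {z | z + y ∈ K} u) ^ (-(-p)) := by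
  rw [neg_neg]
  refine integral_congr_ae (Filter.Eventually.of_forall fun x => ?_)
  simp only
  rw [image_eq, radial_eq]

/-- For every `n ≥ 1`, every `p ∈ (-1,0)` and every convex body `K ⊂ ℝ^n`, the radial mean body
`R_p K` (which exists and is unique) embeds in `L^(-p)`, and `Γ(p/2) ρ_{R_p K}^p` has a positive
Fourier transform off the origin. -/
theorem result :
    ∀ n : ℕ, 1 ≤ n → ∀ p : ℝ, -1 < p → p < 0 → ∀ K : Set (V n), IsConvexBody K →
      (∃! M : Set (V n), IsRadialMeanBody p K M) ∧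
      ∀ M : Set (V n), IsRadialMeanBody p K M →
        EmbedsInLq (-p) M ∧
        PosDefOffOrigin (fun x => Real.Gamma (p / 2) * (radial M x) ^ p) := by
  intro n hn p hp1 hp0 K hKb
  obtain ⟨hc, hK, hint⟩ := hKb
  have hq : 0 < -p := by linarith
  have hq1 : -p < 1 := by linarith
  have : Nonempty (Fin n) := ⟨⟨0, hn⟩⟩
  have : Nontrivial (V n) := inferInstance
  obtain ⟨w, hw⟩ := (NormedSpace.sphere_nonempty (E := V n) (x := 0) (r := 1)).2 zero_le_one
  let u₀ : sphere (0 : V n) 1 := ⟨w, hw⟩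
  have hfin := W_MP_fd6526_gt.sphMeas'_finite hq hq1 hK hc hint u₀
  set μ := W_MP_fd6526_gt.sphMeas' (-p) K u₀ with hμ
  set N : V n → ℝ := W_MP_fd6526_gt.nrm (-p) μ with hN
  have hNc : Continuous N := W_MP_fd6526_gt.continuous_nrm hq μ
  have hNh : ∀ t : ℝ, 0 ≤ t → ∀ x, N (t • x) = t ^ (-p) * N x :=
    fun t ht x => W_MP_fd6526_gt.nrm_smul μ t ht x
  have hNpos : ∀ x, x ≠ 0 → 0 < N x :=
    fun x hx => W_MP_fd6526_gt.nrm_sphMeas'_pos hq hq1 hK hc hint u₀ hx
  have hNavg : ∀ x, x ≠ 0 → (volume.real K)⁻¹ *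
      ∫ y in K, (radial ((fun z => z - y) '' K) x) ^ p = N x := by
    intro x hx
    rw [average_eq, hN, hμ, W_MP_fd6526_gt.nrm_sphMeas' hq hq1 hK hc hint u₀ hx]
  have hne : ∀ u ∈ sphere (0 : V n) 1, u ≠ 0 := by
    intro u hu h
    rw [h] at hu
    simp at hu
  -- the radial function of any radial mean body, to the power `p`
  have key : ∀ M : Set (V n), IsRadialMeanBody p K M → ∀ x, x ≠ 0 → (radial M x) ^ p = N x := by
    intro M hM x hx
    have hxn : 0 < ‖x‖ := norm_pos_iff.2 hx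
    have hs : ‖x‖⁻¹ • x ∈ sphere (0 : V n) 1 := by
      rw [mem_sphere_zero_iff_norm, norm_smul, norm_inv, norm_norm, inv_mul_cancel₀ hxn.ne']
    have h1 := hM.2 _ hs
    rw [hNavg _ (hne _ hs)] at h1
    have hNs := hNpos _ (hne _ hs)
    rw [radial_eq, W_MP_fd6526_gt.radialFn_normalize M hx, ← radial_eq, h1,
      Real.mul_rpow (by positivity) (by positivity), ← Real.rpow_mul hNs.le,
      one_div_mul_cancel hp0.ne, Real.rpow_one, Real.inv_rpow hxn.le, ← Real.rpow_neg hxn.le,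
      ← hNh _ hxn.le, smul_smul, mul_inv_cancel₀ hxn.ne', one_smul]
  have hlevel : ∀ x, x ≠ 0 → radial {x | N x ≤ 1} x = N x ^ (1 / p) := by
    intro x hx
    rw [radial_eq, W_MP_fd6526_gt.level_radial hq hNh hNpos hx, Real.inv_rpow (hNpos x hx).le,
      ← Real.rpow_neg (hNpos x hx).le]
    congr 1
    rw [div_neg, neg_neg]
  refine ⟨⟨{x | N x ≤ 1}, ⟨⟨?_, ?_, ?_, ?_⟩, ?_⟩, ?_⟩, ?_⟩
  · exact W_MP_fd6526_gt.level_compact hq hNc hNh hNpos u₀
  · rw [starConvex_zero_iff]
    intro x hx t ht0 ht1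
    show N (t • x) ≤ 1
    rw [hNh t ht0]
    have hx1 : N x ≤ 1 := hx
    have h2 : t ^ (-p) ≤ 1 := Real.rpow_le_one ht0 ht1 hq.le
    have h3 : 0 ≤ N x := W_MP_fd6526_gt.nrm_nonneg _ _ _
    calc t ^ (-p) * N x ≤ 1 * N x := mul_le_mul_of_nonneg_right h2 h3
      _ ≤ 1 := by linarith
  · intro u hu
    rw [hlevel u (hne u hu)]
    have := hNpos u (hne u hu)
    positivity
  · have h1 : ContinuousOn (fun u => N u ^ (1 / p)) (sphere (0 : V n) 1) := by
      refine ContinuousOn.rpow_const hNc.continuousOn fun u hu => Or.inl ?_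
      exact (hNpos u (hne u hu)).ne'
    exact h1.congr fun u hu => hlevel u (hne u hu)
  · intro u hu
    rw [hlevel u (hne u hu), hNavg u (hne u hu)]
  · -- uniqueness
    intro M hM
    have hM0 : (0 : V n) ∈ M := by
      by_contra h0
      have hemp : M = ∅ := by
        by_contra hcon
        obtain ⟨y, hy⟩ := Set.nonempty_iff_ne_empty.2 hcon
        have := (starConvex_zero_iff.1 hM.1.2.1) hy le_rfl zero_le_one
        rw [zero_smul] at this
        exact h0 this
      have h1 := hM.1.2.2.1 w hw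
      rw [hemp] at h1
      simp [radial] at h1
    ext x
    by_cases hx : x = 0
    · subst hx
      have h1 : N 0 = 0 := by
        have := hNh 0 le_rfl 0
        rwa [zero_smul, Real.zero_rpow hq.ne', zero_mul] at this
      constructor
      · intro _
        show N 0 ≤ 1
        rw [h1]; exact zero_le_one
      · intro _; exact hM0
    · rw [W_MP_fd6526_gt.mem_iff_one_le_radialFn hM.1.1 hM.1.2.1 hM0 hx, ← radial_eq]
      have h1 := key M hM x hx
      have h2 := hNpos x hx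
      have hr : 0 ≤ radial M x := by
        apply Real.sSup_nonneg
        rintro t ⟨ht, _⟩
        exact ht
      have hr0 : 0 < radial M x := by
        rcases eq_or_lt_of_le hr with h | h
        · rw [← h, Real.zero_rpow hp0.ne] at h1
          exact absurd h1.symm h2.ne'
        · exact h
      show 1 ≤ radial M x ↔ N x ≤ 1
      rw [← h1]
      constructor
      · intro h
        exact Real.rpow_le_one_of_one_le_of_nonpos h hp0.le
      · intro h
        by_contra hcon
        push Not at hcon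
        have := Real.one_lt_rpow_of_pos_of_lt_one_of_neg hr0 hcon hp0
        linarith
  · intro M hM
    have hkey := key M hM
    constructor
    · refine ⟨μ, hfin, fun x hx => ?_⟩
      rw [neg_neg, hkey x hx]
      rfl
    · intro φ hφ hφ0
      obtain ⟨hI, c, hc0, hcc⟩ := W_MP_fd6526_gt.posdef_core hq hq1 hK hc hint u₀ φ
        (fun ξ => (hφ ξ).1) (fun ξ => (hφ ξ).2) hφ0
      have hG : Real.Gamma (p / 2) < 0 := W_MP_fd6526_gt.gamma_neg (by linarith) (by linarith)
      have hae : (fun x : V n => ((Real.Gamma (p / 2) * (radial M x) ^ p : ℝ) : ℂ) * hat φ x)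
          =ᵐ[volume] fun x : V n => ((Real.Gamma (p / 2) : ℝ) : ℂ) *
            (((N x : ℝ) : ℂ) * FourierTransform.fourier φ ((2 * Real.pi)⁻¹ • x)) := by
        have h0 : ∀ᵐ x : V n, x ≠ 0 := by
          rw [ae_iff]
          simp
        filter_upwards [h0] with x hx
        rw [hkey x hx]
        have h2 : hat φ x = FourierTransform.fourier φ ((2 * Real.pi)⁻¹ • x) :=
          W_MP_fd6526_gt.hat_eq φ x
        rw [h2]
        push_cast
        ring
      refine ⟨(hI.const_mul _).congr hae.symm, Real.Gamma (p / 2) * c, ?_, ?_⟩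
      · exact mul_nonneg_of_nonpos_of_nonpos hG.le hc0
      · rw [integral_congr_ae hae, integral_const_mul, hcc]
        push_cast
        ring

end Pool.Agent.Results.MP_fd6526_gt.EmbedsAllDimensions
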