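import Mathlib
import Pool.Agent.W_MP_fd6526_h37.Pairing
import Pool.Agent.W_MP_fd6526_h37.Upper
import Pool.Agent.W_MP_fd6526_h37.Test
import Pool.Agent.Results.MP_fd6526_gt.EmbedsAllDimensions

set_option autoImplicit false

namespace Pool.Agent.Results.MP_fd6526_gt.CubeFourierNotRadial

open MeasureTheory Set Metric SchwartzMap
open scoped RealInnerProductSpace ENNReal

/-- The Euclidean space `ℝ^n`. -/
abbrev V (n : ℕ) := EuclideanSpace ℝ (Fin n)

/-- A convex body: compact, convex, nonempty interior. -/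
def IsConvexBody {n : ℕ} (K : Set (V n)) : Prop :=
  Convex ℝ K ∧ IsCompact K ∧ (interior K).Nonempty

/-- The radial function `ρ_M(x) = sup {t ≥ 0 : t x ∈ M}`. -/
noncomputable def radial {n : ℕ} (M : Set (V n)) (x : V n) : ℝ :=
  sSup {t : ℝ | 0 ≤ t ∧ t • x ∈ M}

/-- A star body: compact, star-shaped about `0`, radial function positive and continuous on the
unit sphere. -/
def IsStarBody {n : ℕ} (M : Set (V n)) : Prop :=
  IsCompact M ∧ StarConvex ℝ 0 M ∧ (∀ u ∈ sphere (0 : V n) 1, 0 < radial M u) ∧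
    ContinuousOn (radial M) (sphere (0 : V n) 1)

/-- `M` is the radial `p`-th mean body `R_p K` of `K`. -/
def IsRadialMeanBody {n : ℕ} (p : ℝ) (K M : Set (V n)) : Prop :=
  IsStarBody M ∧ ∀ u ∈ sphere (0 : V n) 1,
    radial M u = ((volume.real K)⁻¹ * ∫ x in K, (radial ((fun z => z - x) '' K) u) ^ p) ^ (1 / p)

/-- The Fourier transform `hat φ(x) = ∫ φ(ξ) e^(-i⟨ξ,x⟩) dξ`. -/
noncomputable def hat {n : ℕ} (φ : 𝓢(V n, ℂ)) (x : V n) : ℂ :=
  ∫ ξ, φ ξ * Complex.exp (-(Complex.I * ((⟪ξ, x⟫ : ℝ) : ℂ)))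

/-- The radial function of an arbitrary set, with values in `[0, ∞]`. -/
noncomputable def eradial {n : ℕ} (L : Set (V n)) (x : V n) : ℝ≥0∞ :=
  ⨆ (t : ℝ) (_ : 0 ≤ t ∧ t • x ∈ L), ENNReal.ofReal t

/-- The function on `ℝ^n` without the origin which is homogeneous of degree `p - n` (the degree of
homogeneity of the Fourier transform of `ρ^p`) and whose restriction to the unit sphere is the
radial function of `L`. -/
noncomputable def homExt {n : ℕ} (p : ℝ) (L : Set (V n)) (ξ : V n) : ℝ≥0∞ :=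
  ENNReal.ofReal (‖ξ‖ ^ (p - n)) * eradial L (‖ξ‖⁻¹ • ξ)

/-- The Fourier transform of the function `f` is given, off the origin, by the function `g`:
`⟨f, hat φ⟩ = ∫ g φ` (a finite integral) for every nonnegative smooth `φ` with compact support not
containing the origin. -/
def FourierGivenBy {n : ℕ} (f : V n → ℝ) (g : V n → ℝ≥0∞) : Prop :=
  ∀ φ : 𝓢(V n, ℂ), HasCompactSupport φ → (0 : V n) ∉ tsupport φ →
    (∀ ξ, 0 ≤ (φ ξ).re ∧ (φ ξ).im = 0) →
    ∫⁻ ξ, g ξ * ENNReal.ofReal (φ ξ).re < ∞ ∧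
      ∫ x, (f x : ℂ) * hat φ x = ((∫⁻ ξ, g ξ * ENNReal.ofReal (φ ξ).re).toReal : ℂ)

theorem radial_pow {n : ℕ} (hn : 1 ≤ n) {p : ℝ} (hp1 : -1 < p) (hp0 : p < 0) {K M : Set (V n)}
    (hKb : IsConvexBody K) (hM : IsRadialMeanBody p K M) (u₀ : sphere (0 : V n) 1) (x : V n)
    (hx : x ≠ 0) :
    (radial M x) ^ p = W_MP_fd6526_gt.nrm (-p) (W_MP_fd6526_gt.sphMeas' (-p) K u₀) x := by
  obtain ⟨hc, hK, hint⟩ := hKb
  have hq : 0 < -p := by linarith
  have hq1 : -p < 1 := by linarith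
  set μ := W_MP_fd6526_gt.sphMeas' (-p) K u₀ with hμ
  have hNh : ∀ t : ℝ, 0 ≤ t → ∀ x, W_MP_fd6526_gt.nrm (-p) μ (t • x)
      = t ^ (-p) * W_MP_fd6526_gt.nrm (-p) μ x :=
    fun t ht x => W_MP_fd6526_gt.nrm_smul μ t ht x
  have hNpos : ∀ x, x ≠ 0 → 0 < W_MP_fd6526_gt.nrm (-p) μ x :=
    fun x hx => W_MP_fd6526_gt.nrm_sphMeas'_pos hq hq1 hK hc hint u₀ hx
  have hNavg : ∀ x, x ≠ 0 → (volume.real K)⁻¹ *
      ∫ y in K, (radial ((fun z => z - y) '' K) x) ^ p = W_MP_fd6526_gt.nrm (-p) μ x := by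
    intro x hx
    have := EmbedsAllDimensions.average_eq p K x
    have h2 : ∫ y in K, (radial ((fun z => z - y) '' K) x) ^ p
      = ∫ y in K, (W_MP_fd6526_gt.radialFn {z | z + y ∈ K} x) ^ (-(-p)) := this
    rw [h2, hμ, W_MP_fd6526_gt.nrm_sphMeas' hq hq1 hK hc hint u₀ hx]
  have hxn : 0 < ‖x‖ := norm_pos_iff.2 hx
  have hs : ‖x‖⁻¹ • x ∈ sphere (0 : V n) 1 := by
    rw [mem_sphere_zero_iff_norm, norm_smul, norm_inv, norm_norm, inv_mul_cancel₀ hxn.ne']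
  have hne : ‖x‖⁻¹ • x ≠ 0 := by
    intro h
    rw [h] at hs
    simp at hs
  have h1 := hM.2 _ hs
  rw [hNavg _ hne] at h1
  have hNs := hNpos _ hne
  have hrad : ∀ (A : Set (V n)) (y : V n), radial A y = W_MP_fd6526_gt.radialFn A y :=
    fun _ _ => rfl
  rw [hrad, W_MP_fd6526_gt.radialFn_normalize M hx, ← hrad, h1,
    Real.mul_rpow (by positivity) (by positivity), ← Real.rpow_mul hNs.le,
    one_div_mul_cancel hp0.ne, Real.rpow_one, Real.inv_rpow hxn.le, ← Real.rpow_neg hxn.le,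
    ← hNh _ hxn.le, smul_smul, mul_inv_cancel₀ hxn.ne', one_smul]

/-- The pairing of the distribution with test functions. -/
theorem pairing {n : ℕ} (hn : 1 ≤ n) {p : ℝ} (hp1 : -1 < p) (hp0 : p < 0) {K M : Set (V n)}
    (hKb : IsConvexBody K) (hM : IsRadialMeanBody p K M) :
    ∃ B : ℝ, 0 < B ∧ ∀ φ : 𝓢(V n, ℂ), (∀ ξ, (φ ξ).im = 0) → φ 0 = 0 →
      Integrable (W_MP_fd6526_h37.sym φ) (W_MP_fd6526_gt.kap (-p) K) ∧
      ∫ x, ((Real.Gamma (p / 2) * (radial M x) ^ p : ℝ) : ℂ) * hat φ x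
        = ((B * ∫ z, W_MP_fd6526_h37.sym φ z ∂(W_MP_fd6526_gt.kap (-p) K) : ℝ) : ℂ) := by
  have hq : 0 < -p := by linarith
  have hq1 : -p < 1 := by linarith
  have : Nonempty (Fin n) := ⟨⟨0, hn⟩⟩
  have : Nontrivial (V n) := inferInstance
  obtain ⟨w, hw⟩ := (NormedSpace.sphere_nonempty (E := V n) (x := 0) (r := 1)).2 zero_le_one
  let u₀ : sphere (0 : V n) 1 := ⟨w, hw⟩
  have hkey := radial_pow hn hp1 hp0 hKb hM u₀
  obtain ⟨hc, hK, hint⟩ := hKb
  obtain ⟨A, hA, hAφ⟩ := W_MP_fd6526_h37.nrm_pairing hq hq1 hK hc hint u₀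
  have hG : Real.Gamma (p / 2) < 0 := W_MP_fd6526_gt.gamma_neg (by linarith) (by linarith)
  refine ⟨-Real.Gamma (p / 2) * A, mul_pos (neg_pos.2 hG) hA, fun φ him h0 => ?_⟩
  obtain ⟨hI, hcc⟩ := hAφ φ him h0
  refine ⟨hI, ?_⟩
  have hae : (fun x : V n => ((Real.Gamma (p / 2) * (radial M x) ^ p : ℝ) : ℂ) * hat φ x)
      =ᵐ[volume] fun x : V n => ((Real.Gamma (p / 2) : ℝ) : ℂ) *
        (((W_MP_fd6526_gt.nrm (-p) (W_MP_fd6526_gt.sphMeas' (-p) K u₀) x : ℝ) : ℂ) *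
          FourierTransform.fourier φ ((2 * Real.pi)⁻¹ • x)) := by
    have h0 : ∀ᵐ x : V n, x ≠ 0 := by
      rw [ae_iff]
      simp
    filter_upwards [h0] with x hx
    rw [hkey x hx]
    have h2 : hat φ x = FourierTransform.fourier φ ((2 * Real.pi)⁻¹ • x) :=
      W_MP_fd6526_gt.hat_eq φ x
    rw [h2]
    push_cast
    ring
  rw [integral_congr_ae hae, integral_const_mul, hcc]
  push_cast
  ring

/-- Superlevel sets of the homogeneous extension. -/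
theorem homExt_level {n : ℕ} {p : ℝ} (hp0 : p < 0) (hn : 1 ≤ n) {L : Set (V n)}
    (hL : StarConvex ℝ 0 L) {R : ℝ} (hR : 0 < R) {η : V n} (h1 : 1 / 2 ≤ ‖η‖) (h2 : ‖η‖ ≤ R)
    {t : ℝ} (ht : 0 < t)
    (h : ENNReal.ofReal ((1 / 2 : ℝ) ^ (p - n) * R * t) < homExt p L η) : t • η ∈ L := by
  have hη : 0 < ‖η‖ := by linarith
  have hn' : (1 : ℝ) ≤ n := by exact_mod_cast hn
  have hC : ENNReal.ofReal (‖η‖ ^ (p - n)) ≤ ENNReal.ofReal ((1 / 2 : ℝ) ^ (p - n)) := by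
    apply ENNReal.ofReal_le_ofReal
    exact Real.rpow_le_rpow_of_nonpos (by norm_num) h1 (by linarith)
  have hCpos : (0 : ℝ) < (1 / 2 : ℝ) ^ (p - n) := by positivity
  have h3 : ENNReal.ofReal ((1 / 2 : ℝ) ^ (p - n)) * ENNReal.ofReal (R * t)
      < ENNReal.ofReal ((1 / 2 : ℝ) ^ (p - n)) * eradial L (‖η‖⁻¹ • η) := by
    rw [← ENNReal.ofReal_mul hCpos.le, ← mul_assoc]
    refine lt_of_lt_of_le h ?_
    unfold homExt
    exact mul_le_mul_left hC _
  have h4 : ENNReal.ofReal (R * t) < eradial L (‖η‖⁻¹ • η) := lt_of_mul_lt_mul_left' h3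
  unfold eradial at h4
  obtain ⟨s, hs⟩ := lt_iSup_iff.1 h4
  obtain ⟨⟨hs0, hsL⟩, hs2⟩ := lt_iSup_iff.1 hs
  have hs3 : R * t < s := by
    rw [ENNReal.ofReal_lt_ofReal_iff_of_nonneg (by positivity)] at hs2
    exact hs2
  have hspos : 0 < s := lt_trans (by positivity) hs3
  have h5 := (starConvex_zero_iff.1 hL) hsL (a := t * ‖η‖ / s) (by positivity) (by
    rw [div_le_one hspos]
    nlinarith)
  have h6 : (t * ‖η‖ / s) • s • ‖η‖⁻¹ • η = t • η := by
    rw [smul_smul, smul_smul]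
    congr 1
    field_simp
  rwa [h6] at h5

theorem cube_convexBody (n : ℕ) : IsConvexBody (W_MP_fd6526_h37.cube n) :=
  ⟨W_MP_fd6526_h37.convex_cube n, W_MP_fd6526_h37.isCompact_cube n,
    W_MP_fd6526_h37.interior_cube n⟩

theorem main {n : ℕ} (hn : 3 ≤ n) {p : ℝ} (hp1 : -1 < p) (hp0 : p < 0) {M : Set (V n)}
    (hM : IsRadialMeanBody p (W_MP_fd6526_h37.cube n) M) {L : Set (V n)} (hL : StarConvex ℝ 0 L)
    (hLv : volume L < ∞)
    (hF : FourierGivenBy (fun x => Real.Gamma (p / 2) * (radial M x) ^ p) (homExt p L)) :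
    False := by
  have hq : 0 < -p := by linarith
  set q := -p with hqd
  obtain ⟨B, hB, hBφ⟩ := pairing (by omega) hp1 hp0 (cube_convexBody n) hM
  let i₀ : Fin n := ⟨0, by omega⟩
  obtain ⟨R₁, hR₁⟩ := (W_MP_fd6526_h37.isCompact_box n (9 / 2)).isBounded.exists_norm_le
  set R : ℝ := max R₁ 1 with hRd
  have hR : 0 < R := lt_of_lt_of_le one_pos (le_max_right _ _)
  set C₁ : ℝ := (1 / 2 : ℝ) ^ (p - n) with hC₁
  have hC₁pos : 0 < C₁ := by positivity
  set Vol : ℝ := (volume L).toReal with hVol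
  have hVol0 : 0 ≤ Vol := ENNReal.toReal_nonneg
  -- the inequality for every m
  have hineq : ∀ m : ℕ, 0 < m →
      B * (((1 / 1024) * (1 / 4) ^ (n - 1) / ((m ^ 2 : ℕ) : ℝ)) *
        (q * (2 / ((m ^ 2 : ℕ) : ℝ)) ^ (-q - 1) / ((m ^ 2 : ℕ) : ℝ)) / 2)
      ≤ C₁ * R * m * (4 * (4 / ((m ^ 2 : ℕ) : ℝ)) ^ (n - 1)) +
        4 * (C₁ * R) * m * ((m : ℝ) ^ n)⁻¹ * Vol := by
    intro m hm
    have hN : 0 < m ^ 2 := by positivity
    have hm' : (0 : ℝ) < m := by exact_mod_cast hm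
    set φ := W_MP_fd6526_h37.phi i₀ hN with hφ
    have hre : ∀ ξ, (φ ξ).re = W_MP_fd6526_h37.tf i₀ (m ^ 2) ξ := fun ξ => by
      rw [hφ, W_MP_fd6526_h37.phi_apply, Complex.ofReal_re]
    have him : ∀ ξ, (φ ξ).im = 0 := fun ξ => by
      rw [hφ, W_MP_fd6526_h37.phi_apply, Complex.ofReal_im]
    have hnn : ∀ ξ, 0 ≤ (φ ξ).re := fun ξ => by
      rw [hre]; exact W_MP_fd6526_h37.tf_nonneg i₀ _ ξ
    have h0 : φ 0 = 0 := image_eq_zero_of_notMem_tsupport (W_MP_fd6526_h37.phi_tsupport i₀ hN)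
    obtain ⟨hI, hpair⟩ := hBφ φ him h0
    obtain ⟨hfin, hgiv⟩ := hF φ (W_MP_fd6526_h37.phi_compact i₀ hN)
      (W_MP_fd6526_h37.phi_tsupport i₀ hN) (fun ξ => ⟨hnn ξ, him ξ⟩)
    rw [hpair] at hgiv
    have hgiv' : B * ∫ z, W_MP_fd6526_h37.sym φ z ∂(W_MP_fd6526_gt.kap q
        (W_MP_fd6526_h37.cube n)) = (∫⁻ ξ, homExt p L ξ * ENNReal.ofReal (φ ξ).re).toReal := by
      exact_mod_cast hgiv
    -- lower bound
    have hlow := W_MP_fd6526_h37.sym_lower (q := q) (K := W_MP_fd6526_h37.cube n) φ hnn hI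
      (W_MP_fd6526_h37.SS n i₀ (m ^ 2)) (Icc (1 / ((m ^ 2 : ℕ) : ℝ)) (2 / ((m ^ 2 : ℕ) : ℝ)))
      (W_MP_fd6526_h37.measurableSet_SS n i₀ _) measurableSet_Icc
      (fun r hr => lt_of_lt_of_le (by positivity) hr.1)
      (fun ξ hξ r hr => by
        rw [hre, W_MP_fd6526_h37.tf_one_on i₀ hN hξ hr])
      ((1 / 1024) * (1 / 4) ^ (n - 1) / ((m ^ 2 : ℕ) : ℝ))
      (q * (2 / ((m ^ 2 : ℕ) : ℝ)) ^ (-q - 1) / ((m ^ 2 : ℕ) : ℝ))
      (W_MP_fd6526_h37.spec_integral_lower i₀ hN) (W_MP_fd6526_h37.radii_lower hq hN)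
      (by positivity) (by positivity)
    -- upper bound
    have hup : ∫⁻ ξ, homExt p L ξ * ENNReal.ofReal (φ ξ).re
        ≤ ENNReal.ofReal (C₁ * R * m) * volume (W_MP_fd6526_h37.DD n i₀ (m ^ 2)) +
          ENNReal.ofReal (4 * (C₁ * R) * m * ((m : ℝ) ^ n)⁻¹) * volume L := by
      have hd := W_MP_fd6526_h37.dyadic_bound (volume : Measure (V n))
        (by rw [finrank_euclideanSpace_fin]; omega) L (W_MP_fd6526_h37.DD n i₀ (m ^ 2))
        (W_MP_fd6526_h37.measurableSet_DD n i₀ _) (homExt p L) (C₁ * R) m (by positivity) hm'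
        (by
          intro η hη t ht h
          refine homExt_level hp0 (by omega) hL hR (η := η) ?_ ?_ ht h
          · have h1 : |η i₀| ≤ ‖η‖ := by
              have := PiLp.norm_apply_le η i₀
              rwa [Real.norm_eq_abs] at this
            have h2 := hη.1.1
            have h3 := le_abs_self (η i₀)
            linarith
          · refine (hR₁ η ?_).trans (le_max_left _ _)
            intro i
            by_cases hi : i = i₀
            · rw [hi, abs_le]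
              constructor <;> linarith [hη.1.1, hη.1.2]
            · refine (hη.2 i hi).trans ?_
              have hm2 : (1 : ℝ) ≤ ((m ^ 2 : ℕ) : ℝ) := by exact_mod_cast hN
              rw [div_le_iff₀ (by linarith)]
              linarith)
      rw [finrank_euclideanSpace_fin] at hd
      refine le_trans ?_ hd
      rw [← lintegral_indicator (W_MP_fd6526_h37.measurableSet_DD n i₀ _)]
      refine lintegral_mono fun ξ => ?_
      by_cases hξ : W_MP_fd6526_h37.tf i₀ (m ^ 2) ξ = 0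
      · rw [hre, hξ]
        simp
      · rw [indicator_of_mem (W_MP_fd6526_h37.tf_support i₀ hN hξ), hre]
        calc homExt p L ξ * ENNReal.ofReal (W_MP_fd6526_h37.tf i₀ (m ^ 2) ξ)
            ≤ homExt p L ξ * ENNReal.ofReal 1 := by
              gcongr
              exact W_MP_fd6526_h37.tf_le_one i₀ _ ξ
          _ = homExt p L ξ := by simp
    have hVolL : volume L = ENNReal.ofReal Vol := (ENNReal.ofReal_toReal hLv.ne).symm
    rw [W_MP_fd6526_h37.volume_DD, hVolL, ← ENNReal.ofReal_mul (by positivity),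
      ← ENNReal.ofReal_mul (by positivity), ← ENNReal.ofReal_add (by positivity)
        (by positivity)] at hup
    have hup' := ENNReal.toReal_mono ENNReal.ofReal_ne_top hup
    rw [ENNReal.toReal_ofReal (by positivity), ← hgiv'] at hup'
    exact (mul_le_mul_of_nonneg_left hlow hB.le).trans hup'
  -- simplification
  set c : ℝ := B * ((1 / 1024) * (1 / 4) ^ (n - 1) * (q * 2 ^ (-q - 1)) / 2) with hc
  have hcpos : 0 < c := by positivity
  set D : ℝ := C₁ * R * (4 * 4 ^ (n - 1)) + 4 * (C₁ * R) * Vol with hD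
  have hfinal : ∀ m : ℕ, 0 < m → c * (m : ℝ) ^ (2 * q) ≤ D := by
    intro m hm
    have hm' : (0 : ℝ) < m := by exact_mod_cast hm
    have hm1 : (1 : ℝ) ≤ m := by exact_mod_cast hm
    have h := hineq m hm
    have hcast : ((m ^ 2 : ℕ) : ℝ) = (m : ℝ) ^ 2 := by push_cast; ring
    rw [hcast] at h
    have e1 : (2 / (m : ℝ) ^ 2) ^ (-q - 1) = 2 ^ (-q - 1) * ((m : ℝ) ^ (2 * q) * (m : ℝ) ^ 2) := by
      rw [Real.div_rpow (by norm_num) (by positivity), div_eq_mul_inv, ← Real.rpow_neg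
        (by positivity)]
      congr 1
      rw [← Real.rpow_natCast, ← Real.rpow_mul hm'.le, ← Real.rpow_add hm']
      congr 1
      push_cast
      ring
    rw [e1] at h
    have e2 : B * ((1 / 1024) * (1 / 4) ^ (n - 1) / (m : ℝ) ^ 2 *
        (q * (2 ^ (-q - 1) * ((m : ℝ) ^ (2 * q) * (m : ℝ) ^ 2)) / (m : ℝ) ^ 2) / 2)
        = c * (m : ℝ) ^ (2 * q) * (((m : ℝ) ^ 2)⁻¹) := by
      rw [hc]
      field_simp
    rw [e2] at h
    obtain ⟨j, hj⟩ : ∃ j, n = j + 3 := ⟨n - 3, by omega⟩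
    have e3 : (m : ℝ) * (4 / (m : ℝ) ^ 2) ^ (n - 1) ≤ 4 ^ (n - 1) * ((m : ℝ) ^ 2)⁻¹ := by
      rw [div_pow, hj, show j + 3 - 1 = j + 2 by omega]
      have h1 : (m : ℝ) * ((m : ℝ) ^ 2) ≤ ((m : ℝ) ^ 2) ^ (j + 2) := by
        rw [← pow_mul, ← pow_succ']
        exact pow_le_pow_right₀ hm1 (by omega)
      rw [← mul_div_assoc, div_le_iff₀ (by positivity)]
      have h2 : (4 : ℝ) ^ (j + 2) * ((m : ℝ) ^ 2)⁻¹ * ((m : ℝ) ^ 2) ^ (j + 2)
          ≥ (4 : ℝ) ^ (j + 2) * ((m : ℝ) ^ 2)⁻¹ * ((m : ℝ) * ((m : ℝ) ^ 2)) := by gcongr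
      have h3 : (4 : ℝ) ^ (j + 2) * ((m : ℝ) ^ 2)⁻¹ * ((m : ℝ) * ((m : ℝ) ^ 2))
          = m * 4 ^ (j + 2) := by field_simp
      linarith
    have e4 : (m : ℝ) * ((m : ℝ) ^ n)⁻¹ ≤ ((m : ℝ) ^ 2)⁻¹ := by
      rw [hj, ← div_eq_mul_inv, div_le_iff₀ (by positivity), inv_mul_eq_div,
        le_div_iff₀ (by positivity), ← pow_succ']
      exact pow_le_pow_right₀ hm1 (by omega)
    have h5 : C₁ * R * m * (4 * (4 / (m : ℝ) ^ 2) ^ (n - 1)) +
        4 * (C₁ * R) * m * ((m : ℝ) ^ n)⁻¹ * Vol ≤ D * ((m : ℝ) ^ 2)⁻¹ := by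
      have a1 : C₁ * R * m * (4 * (4 / (m : ℝ) ^ 2) ^ (n - 1))
          ≤ C₁ * R * (4 * 4 ^ (n - 1)) * ((m : ℝ) ^ 2)⁻¹ := by
        calc C₁ * R * m * (4 * (4 / (m : ℝ) ^ 2) ^ (n - 1))
            = C₁ * R * 4 * (m * (4 / (m : ℝ) ^ 2) ^ (n - 1)) := by ring
          _ ≤ C₁ * R * 4 * (4 ^ (n - 1) * ((m : ℝ) ^ 2)⁻¹) := by gcongr
          _ = _ := by ring
      have a2 : 4 * (C₁ * R) * m * ((m : ℝ) ^ n)⁻¹ * Vol
          ≤ 4 * (C₁ * R) * Vol * ((m : ℝ) ^ 2)⁻¹ := by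
        calc 4 * (C₁ * R) * m * ((m : ℝ) ^ n)⁻¹ * Vol
            = 4 * (C₁ * R) * Vol * (m * ((m : ℝ) ^ n)⁻¹) := by ring
          _ ≤ 4 * (C₁ * R) * Vol * ((m : ℝ) ^ 2)⁻¹ := by gcongr
      rw [hD]
      linarith [add_mul (C₁ * R * (4 * 4 ^ (n - 1))) (4 * (C₁ * R) * Vol) ((m : ℝ) ^ 2)⁻¹]
    have h6 := h.trans h5
    have hinv : (0 : ℝ) < ((m : ℝ) ^ 2)⁻¹ := by positivity
    exact le_of_mul_le_mul_right h6 hinv
  -- contradiction
  have htend : Filter.Tendsto (fun m : ℕ => (m : ℝ) ^ (2 * q)) Filter.atTop Filter.atTop :=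
    (tendsto_rpow_atTop (by positivity)).comp tendsto_natCast_atTop_atTop
  obtain ⟨m, hm1, hm2⟩ := ((htend.eventually_gt_atTop (D / c)).and
    (Filter.eventually_gt_atTop 0)).exists
  have h7 := hfinal m hm2
  rw [div_lt_iff₀ hcpos] at hm1
  linarith

/-- For every `n ≥ 3` and every `p ∈ (-1,0)` there is a convex body `K ⊂ ℝ^n` (a cube) such that
the Fourier transform of `Γ(p/2) ρ_{R_p K}^p` is not, off the origin, given by a function whose
restriction to the unit sphere is the radial function of a star-shaped set of finite volume. -/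
theorem result :
    ∀ n : ℕ, 3 ≤ n → ∀ p : ℝ, -1 < p → p < 0 →
      ∃ K M : Set (V n), K = {x : V n | ∀ i, |x i| ≤ 1} ∧ IsConvexBody K ∧
        IsRadialMeanBody p K M ∧ ∀ L : Set (V n), StarConvex ℝ 0 L → volume L < ∞ →
          ¬ FourierGivenBy (fun x => Real.Gamma (p / 2) * (radial M x) ^ p) (homExt p L) := by
  intro n hn p hp1 hp0
  obtain ⟨⟨M, hM, -⟩, -⟩ := EmbedsAllDimensions.result n (by omega) p hp1 hp0
    (W_MP_fd6526_h37.cube n) (cube_convexBody n)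
  exact ⟨W_MP_fd6526_h37.cube n, M, rfl, cube_convexBody n, hM, fun L hL hLv hF =>
    main hn hp1 hp0 hM hL hLv hF⟩

end Pool.Agent.Results.MP_fd6526_gt.CubeFourierNotRadial
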